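import Pool.Agent.Q107.Tri.Final

set_option autoImplicit false

/-!
# `(3,6)`-tight graphs are exactly the graphs with property (P)

A graph with at least four vertices and at least one edge is `(3,6)`-tight if and only if for every
edge `e` its edge set has a partition `(S₁, S₂, S₃)` with `|S_i| = |V| - i` and `e ∈ S₁` such that
`(V, S₁ ∪ S₂)`, `(V, S₁ ∪ S₃)/e` and `(V, S₂ ∪ S₃ ∪ {e})/e` are `(2,3)`-tight. The definitions
`IsSparse`, `IsTight`, `contract` and `PropP` are in `Pool.Agent.Q107.Tri.Defs`.

Outline of the proof that a `(3,6)`-tight graph has (P). Let `M₁` be the contraction by `e` of the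
`(2,3)`-count matroid of `G`, and `M₂` the `(2,3)`-count matroid of `G/e`, both on `E \ e`. One needs
bases `B₁` of `M₁` and `B₂, B₃` of `M₂` such that every element is in exactly two of them. By the
matroid union theorem for the ground set with every element doubled this is equivalent to the
inequality `2|T| ≤ r₁(T) + 2 r₂(T)` for all `T ⊆ E \ e`. It is proved by induction on `|T|`. Coloops
of `M₂|T` can be deleted. Let `X₀` be the maximal rigid set of `T ∪ e` that contains the ends of `e`.
If an edge `a` of `T` is not inside `X₀` one deletes all edges outside `X₀` which belong to the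
rigid component `Y` of `a` in `G/e`: the rank `r₁` decreases by the rank `r` of the deleted set `A`, and
`r₂` by at least `r - 1`, while `3r ≥ 2|A| + 2` by `(3,6)`-sparsity if `|A| ≥ 2`. If all edges of `T`
are inside `X₀` the inequality follows by counting over the rigid components of `T` in `G/e`.
-/

namespace Pool.Agent.Results.MP_eace5d_co.TightIffP

open Pool.Agent.Q107.Tri

/-- **Q1, answered positively.** A finite simple graph with at least four vertices and at least one
edge is `(3,6)`-tight if and only if it has property (P). -/
theorem result {V : Type} [Fintype V] [DecidableEq V] (G : SimpleGraph V) [DecidableRel G.Adj]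
    (hV : 4 ≤ Fintype.card V) (hG : ∃ x y, G.Adj x y) :
    IsTight 3 6 Finset.univ G.edgeFinset.val ↔ PropP G :=
  ⟨propP_of_tight G hV, tight_of_propP G hG⟩

end Pool.Agent.Results.MP_eace5d_co.TightIffP
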